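import Pool.Agent.W945.Lc.Stm

/-! # Project LC: minimal circuits are wired -/

set_option autoImplicit false

namespace Pool.Agent.W597.Lc.MIN

open Finset Pool.Agent.W945.Pw Pool.Agent.W945.Lc

theorem node_av {n : ℕ} {g : ℕ → Fn n} {k : ℕ} {v : Node n} (hv : v.Before k) {a : Fn n} {c : Bool}
    (h : ∀ x, a x = xor (v.fn g x) c) : Av g (fun j => j < k) a := by
  cases v with
  | inp i => exact ⟨c, Or.inr (Or.inl ⟨i, h⟩)⟩
  | gt j => exact ⟨c, Or.inr (Or.inr ⟨j, hv, h⟩)⟩

theorem av_node {n : ℕ} {g : ℕ → Fn n} {k : ℕ} {a : Fn n} (h : Av g (fun j => j < k) a) :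
    (∃ c : Bool, ∀ x, a x = c) ∨ ∃ (v : Node n) (c : Bool), v.Before k ∧
      ∀ x, a x = xor (v.fn g x) c := by
  obtain ⟨c, h1 | ⟨i, h1⟩ | ⟨j, hj, h1⟩⟩ := h
  · exact Or.inl ⟨c, h1⟩
  · exact Or.inr ⟨Node.inp i, c, trivial, h1⟩
  · exact Or.inr ⟨Node.gt j, c, hj, h1⟩

theorem av_congr {n : ℕ} {g : ℕ → Fn n} {P : ℕ → Prop} {a b : Fn n} (h : Av g P a)
    (hab : ∀ x, b x = a x) : Av g P b := by
  obtain ⟨c, h1 | ⟨i, h1⟩ | ⟨j, hj, h1⟩⟩ := h
  · exact ⟨c, Or.inl fun x => (hab x).trans (h1 x)⟩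
  · exact ⟨c, Or.inr (Or.inl ⟨i, fun x => (hab x).trans (h1 x)⟩)⟩
  · exact ⟨c, Or.inr (Or.inr ⟨j, hj, fun x => (hab x).trans (h1 x)⟩)⟩

theorem main : MIN.Stm := by
  intro hB hI hD n s F hF hnc hnl
  classical
  have hex : ∃ t, Computes F t := ⟨s, hF⟩
  obtain ⟨t, ht, hmin⟩ : ∃ t, Computes F t ∧ ∀ t' < t, ¬ Computes F t' :=
    ⟨Nat.find hex, Nat.find_spec hex, fun t' h => Nat.find_min hex h⟩
  have hts : t ≤ s := by
    by_contra hcon
    exact hmin s (not_le.1 hcon) hF
  obtain ⟨t', ht', g, hch, hav⟩ := hI n t F ht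
  have h0 : Computes F t' := by
    have := hD hB n t' g ∅ F (Finset.empty_subset _) hch (fun k hk => by simp at hk) hav
    simpa using this
  have htt : t' = t := by
    by_contra hcon
    exact hmin t' (lt_of_le_of_ne ht' hcon) h0
  subst htt
  -- no gate is trivial
  have htriv : ∀ k < t', ¬ Av g (fun j => j < k) (g k) := by
    intro k hk h
    have h1 := hD hB n t' g {k} F (by simpa using hk) hch (fun k' hk' => by
      rw [Finset.mem_singleton] at hk'
      subst hk'
      exact h) hav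
    rw [Finset.card_singleton] at h1
    exact hmin (t' - 1) (by omega) h1
  -- the output
  obtain ⟨j0, γ, hj0, hout⟩ : ∃ (j : ℕ) (γ : Bool), j < t' ∧ ∀ x, F x = xor (g j x) γ := by
    obtain ⟨c, h1 | ⟨i, h1⟩ | ⟨j, hj, h1⟩⟩ := hav
    · exact absurd ⟨c, h1⟩ hnc
    · exact absurd ⟨i, c, h1⟩ hnl
    · exact ⟨j, c, hj, h1⟩
  have hpos : 1 ≤ t' := by omega
  have hj1 : j0 = t' - 1 := by
    by_contra hcon
    have hlt : j0 < t' - 1 := by omega
    have h1 := hD hB n (t' - 1) g ∅ F (Finset.empty_subset _) (fun k hk => hch k (by omega))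
      (fun k hk => by simp at hk) ⟨γ, Or.inr (Or.inr ⟨j0, hlt, hout⟩)⟩
    rw [Finset.card_empty, Nat.sub_zero] at h1
    exact hmin (t' - 1) (by omega) h1
  subst hj1
  -- the wires
  have hw : ∀ k, ∃ (v w : Node n) (α β : Bool), k < t' → v.Before k ∧ w.Before k ∧
      ∀ x, g k x = (xor (v.fn g x) α && xor (w.fn g x) β) := by
    intro k
    by_cases hk : k < t'
    · obtain ⟨a, b, ha, hb, hg⟩ := hch k hk
      rcases av_node ha with ⟨c, hc⟩ | ⟨v, α, hv, hva⟩
      · exfalso
        apply htriv k hk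
        cases c with
        | false =>
          exact ⟨false, Or.inl fun x => by rw [hg, hc]; rfl⟩
        | true =>
          exact av_congr hb fun x => by rw [hg, hc]; rfl
      · rcases av_node hb with ⟨c, hc⟩ | ⟨w, β, hw, hwb⟩
        · exfalso
          apply htriv k hk
          cases c with
          | false =>
            exact ⟨false, Or.inl fun x => by rw [hg, hc, Bool.and_false]⟩
          | true =>
            exact av_congr ha fun x => by rw [hg, hc, Bool.and_true]
        · exact ⟨v, w, α, β, fun _ => ⟨hv, hw, fun x => by rw [hg, hva, hwb]⟩⟩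
    · exact ⟨Node.gt 0, Node.gt 0, true, true, fun h => absurd h hk⟩
  choose A B α β hAB using hw
  refine ⟨t', ⟨g, A, B, α, β, fun k hk => (hAB k hk).1, fun k hk => (hAB k hk).2.1,
    fun k hk => (hAB k hk).2.2⟩, γ, hts, ⟨hpos, hmin (t' - 1) (by omega), hout, ?_, ?_⟩⟩
  · intro k hk heq
    simp only at heq
    apply htriv k hk
    have h1 := (hAB k hk).2.2
    rw [← heq] at h1
    by_cases hαβ : α k = β k
    · rw [← hαβ] at h1
      exact node_av (hAB k hk).1 (c := α k) fun x => by rw [h1, Bool.and_self]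
    · refine ⟨false, Or.inl fun x => ?_⟩
      rw [h1]
      have h2 : β k = !(α k) := by
        revert hαβ
        cases α k <;> cases β k <;> simp
      rw [h2]
      cases (A k).fn g x <;> cases α k <;> rfl
  · intro k hk
    by_contra hcon
    push Not at hcon
    have hcon' : ∀ l < t', A l ≠ Node.gt k ∧ B l ≠ Node.gt k := by
      intro l hl
      have := hcon l hl
      unfold Wired.Uses at this
      push Not at this
      exact this
    have key : ∀ (l : ℕ) (v : Node n) (c : Bool), v.Before l → v ≠ Node.gt k →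
        Av g (fun j => j < l ∧ j ∉ ({k} : Finset ℕ)) (fun x => xor (v.fn g x) c) := by
      intro l v c hv hne
      cases v with
      | inp i => exact ⟨c, Or.inr (Or.inl ⟨i, fun x => rfl⟩)⟩
      | gt j =>
        refine ⟨c, Or.inr (Or.inr ⟨j, ⟨hv, ?_⟩, fun x => rfl⟩)⟩
        rw [Finset.mem_singleton]
        intro h
        exact hne (by rw [h])
    have h1 := hB n t' g {k} F (by
        rw [Finset.singleton_subset_iff, Finset.mem_range]
        omega) (fun l hl _ => ⟨_, _, key l (A l) (α l) (hAB l hl).1 (hcon' l hl).1,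
          key l (B l) (β l) (hAB l hl).2.1 (hcon' l hl).2, (hAB l hl).2.2⟩)
      ⟨γ, Or.inr (Or.inr ⟨t' - 1, ⟨by omega, by
        rw [Finset.mem_singleton]
        omega⟩, hout⟩)⟩
    rw [Finset.card_singleton] at h1
    exact hmin (t' - 1) (by omega) h1

end Pool.Agent.W597.Lc.MIN
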